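import Mathlib

/-!
There is no maximal nonelementary inclusive variety of semigroups.

Let `M` be a nonelementary inclusive variety.  Then one of the inclusions `u ∈ V` defining `M` has
`u ∉ V`, so `M` is contained in the class `Mod u` defined by the single inclusion `u ∈ {u}ᶜ`.
For a letter `z` the class `Mod (z u)` contains `Mod u` properly (the free nilpotent semigroup of
words of length at most `|u|` is in it), and for every word `w` the class `Mod w` is nonelementary:
it contains all finite groups, so every elementary inclusion of `Mod w` holds in the free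
semigroup, which is not in `Mod w`.
-/

namespace Pool.Agent.Results.MP_f75ac6_al.NoMaximal

universe u

/-- An identical inclusion: a word and a nonempty set of words over the alphabet `ℕ`. -/
structure IdInclusion where
  /-- the left hand word -/
  word : FreeSemigroup ℕ
  /-- the right hand set of words -/
  set : Set (FreeSemigroup ℕ)
  /-- the set is nonempty -/
  nonempty : set.Nonempty

/-- The semigroup `S` satisfies the identical inclusion `i`: for every homomorphism from the free
semigroup over `ℕ` to `S`, the value of the left hand word is the value of some word of the set. -/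
def Satisfies (S : Type u) [Semigroup S] (i : IdInclusion) : Prop :=
  ∀ φ : FreeSemigroup ℕ →ₙ* S, ∃ v ∈ i.set, φ i.word = φ v

/-- A class of semigroups.  (The empty semigroup satisfies every inclusion, so it is in every class
defined by inclusions.) -/
abbrev SemigroupClass := (S : Type u) → [Semigroup S] → Prop

/-- `K` consists of exactly the semigroups satisfying every identical inclusion of `E`. -/
def DefinedBy (K : SemigroupClass.{u}) (E : Set IdInclusion) : Prop :=
  ∀ (S : Type u) [Semigroup S], K S ↔ ∀ i ∈ E, Satisfies S i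

/-- `K` is an inclusive variety: it is defined by some set of identical inclusions. -/
def IsInclusiveVariety (K : SemigroupClass.{u}) : Prop :=
  ∃ E : Set IdInclusion, DefinedBy K E

/-- `K` is elementary: it is defined by some set of elementary identical inclusions, that is, of
identical inclusions with a finite right hand set. -/
def IsElementary (K : SemigroupClass.{u}) : Prop :=
  ∃ E : Set IdInclusion, (∀ i ∈ E, i.set.Finite) ∧ DefinedBy K E

/-- `K` is properly contained in `L`. -/
def ProperlyContained (K L : SemigroupClass.{u}) : Prop :=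
  (∀ (S : Type u) [Semigroup S], K S → L S) ∧ ∃ (S : Type u) (_ : Semigroup S), L S ∧ ¬ K S

/-- `M` is a maximal nonelementary inclusive variety: it is a nonelementary inclusive variety and
every inclusive variety properly containing it is elementary. -/
def IsMaximalNonelementary (M : SemigroupClass.{u}) : Prop :=
  IsInclusiveVariety M ∧ ¬ IsElementary M ∧
    ∀ L : SemigroupClass.{u}, IsInclusiveVariety L → ProperlyContained M L → IsElementary L

/-! ### Words and permutations -/

/-- The list of letters of a word. -/
def letters (w : FreeSemigroup ℕ) : List ℕ := w.head :: w.tail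

lemma letters_mul (v w : FreeSemigroup ℕ) : letters (v * w) = letters v ++ letters w := by
  simp [letters]

lemma letters_injective : Function.Injective letters := by
  intro v w h
  rw [letters, letters, List.cons.injEq] at h
  exact FreeSemigroup.ext h.1 h.2

lemma letters_ne_nil (w : FreeSemigroup ℕ) : letters w ≠ [] := by simp [letters]

/-- Finitely many lists are told apart by letting the letters act as permutations of a finite
set. -/
lemma exists_perms (A : Finset (List ℕ)) :
    ∃ (β : Type) (_ : Finite β) (π : ℕ → Equiv.Perm β),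
      ∀ v ∈ A, ∀ w ∈ A, (v.map π).prod = (w.map π).prod → v = w := by
  classical
  let B : Finset (List ℕ) := insert [] (A.biUnion fun l => l.tails.toFinset)
  have hAB : ∀ l ∈ A, l ∈ B := fun l hl =>
    Finset.mem_insert_of_mem (Finset.mem_biUnion.2 ⟨l, hl, by simp⟩)
  have hB : ∀ a l, a :: l ∈ B → l ∈ B := by
    intro a l h
    rcases Finset.mem_insert.1 h with h | h
    · exact absurd h (by simp)
    · obtain ⟨m, hm, h2⟩ := Finset.mem_biUnion.1 h
      refine Finset.mem_insert_of_mem (Finset.mem_biUnion.2 ⟨m, hm, ?_⟩)
      simp only [List.mem_toFinset, List.mem_tails] at h2 ⊢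
      exact (List.suffix_cons a l).trans h2
  have hex : ∀ a : ℕ, ∃ g : Equiv.Perm B, ∀ l : B, a :: l.1 ∈ B → (g l).1 = a :: l.1 := by
    intro a
    let f : B → B := fun l => if h : a :: l.1 ∈ B then ⟨a :: l.1, h⟩ else l
    let s : Finset B := Finset.univ.filter fun l => a :: l.1 ∈ B
    have hinj : Set.InjOn f s := by
      intro l hl m hm h
      have hl' : a :: l.1 ∈ B := by simpa [s] using hl
      have hm' : a :: m.1 ∈ B := by simpa [s] using hm
      simp only [f, dif_pos hl', dif_pos hm', Subtype.mk.injEq, List.cons.injEq, true_and] at h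
      exact Subtype.ext h
    obtain ⟨g, hg⟩ := Finset.exists_equiv_extend_of_card_eq (t := (Finset.univ : Finset B))
      (by simp) (Finset.subset_univ (s.image f)) hinj
    refine ⟨g.trans (Equiv.subtypeUnivEquiv (by simp)), ?_⟩
    intro l hl
    have h1 : ((g l).1 : B) = f l := hg l (by simp [s, hl])
    change (((g l).1 : B) : List ℕ) = _
    rw [h1]
    simp only [f, dif_pos hl]
  choose π hπ using hex
  have hnil : [] ∈ B := Finset.mem_insert_self _ _
  have key : ∀ l ∈ B, (((l.map π).prod ⟨[], hnil⟩ : B) : List ℕ) = l := by
    intro l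
    induction l with
    | nil => intro _; simp
    | cons a l ih =>
      intro h
      have h1 := ih (hB a l h)
      rw [List.map_cons, List.prod_cons, Equiv.Perm.mul_apply]
      have h2 : ((l.map π).prod ⟨[], hnil⟩ : B) = ⟨l, hB a l h⟩ := Subtype.ext h1
      rw [h2]
      exact hπ a ⟨l, hB a l h⟩ h
  refine ⟨B, inferInstance, π, ?_⟩
  intro v hv w hw h
  rw [← key v (hAB v hv), ← key w (hAB w hw), h]

lemma lift_eq_prod {G : Type} [Group G] (π : ℕ → G) (w : FreeSemigroup ℕ) :
    FreeSemigroup.lift π w = ((letters w).map π).prod := by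
  induction w using FreeSemigroup.recOnMul with
  | ih1 x => simp [letters]
  | ih2 x y h1 h2 =>
    rw [map_mul, h1, h2, letters_mul]
    simp

/-! ### The classes `Mod w` -/

lemma satisfies_ulift {S : Type} [Semigroup S] (i : IdInclusion) :
    Satisfies (ULift.{u} S) i ↔ Satisfies S i := by
  constructor
  · intro h φ
    obtain ⟨v, hv, e⟩ := h ((MulEquiv.ulift (α := S)).symm.toMulHom.comp φ)
    exact ⟨v, hv, (MulEquiv.ulift (α := S)).symm.injective e⟩
  · intro h φ
    obtain ⟨v, hv, e⟩ := h ((MulEquiv.ulift (α := S)).toMulHom.comp φ)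
    exact ⟨v, hv, (MulEquiv.ulift (α := S)).injective e⟩

/-- The inclusion `w ∈ {w}ᶜ`. -/
def inc (w : FreeSemigroup ℕ) : IdInclusion where
  word := w
  set := {w}ᶜ
  nonempty := ⟨w * w, by
    intro h
    have h1 := congrArg letters (show w * w = w from h)
    rw [letters_mul] at h1
    exact letters_ne_nil w (by simpa using h1)⟩

/-- Every finite group satisfies the inclusion `w ∈ {w}ᶜ`. -/
lemma group_satisfies (G : Type) [Group G] [Finite G] (w : FreeSemigroup ℕ) :
    Satisfies G (inc w) := by
  intro φ
  have key : ∀ n : ℕ, ∃ v : FreeSemigroup ℕ,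
      letters v = List.replicate (n + 1) 0 ∧ φ v = φ (FreeSemigroup.of 0) ^ (n + 1) := by
    intro n
    induction n with
    | zero => exact ⟨FreeSemigroup.of 0, by simp [letters], by simp⟩
    | succ n ih =>
      obtain ⟨v, h1, h2⟩ := ih
      refine ⟨FreeSemigroup.of 0 * v, ?_, ?_⟩
      · rw [letters_mul, h1]
        simp [letters, List.replicate_succ]
      · rw [map_mul, h2, pow_succ' _ (n + 1)]
  obtain ⟨v, h1, h2⟩ := key (orderOf (φ (FreeSemigroup.of 0)) - 1)
  have hpos := orderOf_pos (φ (FreeSemigroup.of 0))
  rw [Nat.sub_add_cancel hpos, pow_orderOf_eq_one] at h2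
  refine ⟨w * v, ?_, ?_⟩
  · intro h
    have h3 := congrArg letters (show w * v = w from h)
    rw [letters_mul] at h3
    exact letters_ne_nil v (by simpa using h3)
  · change φ w = _
    rw [map_mul, h2, mul_one]

/-- The class of all semigroups satisfying `w ∈ {w}ᶜ`. -/
def Mod (w : FreeSemigroup ℕ) : SemigroupClass.{u} := fun S _ => Satisfies S (inc w)

lemma mod_isInclusiveVariety (w : FreeSemigroup ℕ) : IsInclusiveVariety (Mod.{u} w) :=
  ⟨{inc w}, fun S _ => by simp [Mod]⟩

lemma mod_nonelementary (w : FreeSemigroup ℕ) : ¬ IsElementary (Mod.{u} w) := by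
  classical
  rintro ⟨E, hfin, hE⟩
  have hfree : ∀ i ∈ E, Satisfies (FreeSemigroup ℕ) i := by
    intro i hi φ
    by_contra hcon
    push Not at hcon
    obtain ⟨β, hβ, π, hπ⟩ := exists_perms
      (insert (letters (φ i.word)) ((hfin i hi).toFinset.image fun v => letters (φ v)))
    have h1 : Mod.{u} w (ULift.{u} (Equiv.Perm β)) :=
      (satisfies_ulift _).2 (group_satisfies _ w)
    have h2 := (satisfies_ulift _).1 ((hE _).1 h1 i hi)
    obtain ⟨v, hv, e⟩ := h2 ((FreeSemigroup.lift π).comp φ)
    apply hcon v hv
    apply letters_injective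
    apply hπ _ (Finset.mem_insert_self _ _) _
      (Finset.mem_insert_of_mem (Finset.mem_image.2 ⟨v, by simpa using hv, rfl⟩))
    rw [MulHom.comp_apply, MulHom.comp_apply, lift_eq_prod, lift_eq_prod] at e
    exact e
  have h3 : Mod.{u} w (ULift.{u} (FreeSemigroup ℕ)) :=
    (hE _).2 fun i hi => (satisfies_ulift i).2 (hfree i hi)
  obtain ⟨v, hv, e⟩ := (satisfies_ulift _).1 h3 (MulHom.id _)
  exact hv e.symm

/-! ### Free nilpotent semigroups -/

/-- Words of length at most `n` are kept, the longer ones are all identified. -/
def nilCon (n : ℕ) : Con (FreeSemigroup ℕ) where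
  r v w := v = w ∨ (n < (letters v).length ∧ n < (letters w).length)
  iseqv := ⟨fun v => Or.inl rfl, by
    rintro v w (h | h)
    · exact Or.inl h.symm
    · exact Or.inr ⟨h.2, h.1⟩, by
    rintro u v w (h | h) (h' | h')
    · exact Or.inl (h.trans h')
    · subst h; exact Or.inr h'
    · subst h'; exact Or.inr h
    · exact Or.inr ⟨h.1, h'.2⟩⟩
  mul' := by
    rintro a b c d (h | h) (h' | h')
    · exact Or.inl (by rw [h, h'])
    all_goals
      right
      simp only [letters_mul, List.length_append]
      first | (subst h; omega) | (subst h'; omega) | omega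

/-- The free semigroup over `ℕ` modulo the ideal of all words longer than `n`. -/
abbrev Nil (n : ℕ) : Type := (nilCon n).Quotient

lemma mk_eq_iff (n : ℕ) (v w : FreeSemigroup ℕ) :
    ((v : Nil n) = (w : Nil n)) ↔ v = w ∨ (n < (letters v).length ∧ n < (letters w).length) :=
  (nilCon n).eq

/-- The length of the value of a word under a homomorphism between free semigroups is at least the
length of the word. -/
lemma length_le (φ : FreeSemigroup ℕ →ₙ* FreeSemigroup ℕ) (w : FreeSemigroup ℕ) :
    (letters w).length ≤ (letters (φ w)).length := by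
  induction w using FreeSemigroup.recOnMul with
  | ih1 x => simp [letters]
  | ih2 x y h1 h2 =>
    rw [map_mul, letters_mul, letters_mul, List.length_append, List.length_append]
    omega

lemma nil_not_satisfies (u : FreeSemigroup ℕ) :
    ¬ Satisfies (Nil (letters u).length) (inc u) := by
  intro h
  obtain ⟨v, hv, e⟩ := h (nilCon (letters u).length).mkMulHom
  rcases (mk_eq_iff _ _ _).1 e with h1 | h1
  · exact hv h1.symm
  · exact absurd h1.1 (lt_irrefl _)

lemma nil_satisfies (n : ℕ) (u : FreeSemigroup ℕ) (hu : n < (letters u).length) :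
    Satisfies (Nil n) (inc u) := by
  intro φ
  obtain ⟨ψ, hψ⟩ : ∃ ψ : FreeSemigroup ℕ →ₙ* FreeSemigroup ℕ,
      ∀ w, φ w = ((ψ w : FreeSemigroup ℕ) : Nil n) := by
    choose f hf using fun x : ℕ => (Quotient.exists_rep (φ (FreeSemigroup.of x)))
    refine ⟨FreeSemigroup.lift f, fun w => ?_⟩
    induction w using FreeSemigroup.recOnMul with
    | ih1 x => rw [FreeSemigroup.lift_of]; exact (hf x).symm
    | ih2 x y h1 h2 => rw [map_mul, h1, h2, map_mul]; rfl
  refine ⟨u * u, ?_, ?_⟩
  · intro h
    have h1 := congrArg letters (show u * u = u from h)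
    rw [letters_mul] at h1
    exact letters_ne_nil u (by simpa using h1)
  · change φ u = φ (u * u)
    rw [hψ, hψ, mk_eq_iff]
    right
    have h1 := length_le ψ u
    have h2 := length_le ψ (u * u)
    rw [letters_mul, List.length_append] at h2
    omega

/-! ### The theorem -/

lemma mod_le (u : FreeSemigroup ℕ) (S : Type u) [Semigroup S] (h : Mod u S) :
    Mod (FreeSemigroup.of 0 * u) S := by
  intro φ
  obtain ⟨v, hv, e⟩ := h φ
  refine ⟨FreeSemigroup.of 0 * v, ?_, ?_⟩
  · intro h
    apply hv
    have h1 := congrArg letters (show FreeSemigroup.of 0 * v = FreeSemigroup.of 0 * u from h)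
    rw [letters_mul, letters_mul] at h1
    exact letters_injective (List.append_cancel_left h1)
  · change φ (FreeSemigroup.of 0 * u) = _
    rw [map_mul, map_mul]
    exact congrArg _ e

/-- There is no maximal nonelementary inclusive variety of semigroups. -/
theorem result : ∀ M : SemigroupClass.{u}, ¬ IsMaximalNonelementary M := by
  rintro M ⟨⟨E, hE⟩, hne, hmax⟩
  obtain ⟨i, hi, hi2⟩ : ∃ i ∈ E, i.word ∉ i.set := by
    by_contra hcon
    push Not at hcon
    apply hne
    refine ⟨∅, by simp, fun S _ => ⟨by simp, fun _ => (hE S).2 fun i hi φ => ?_⟩⟩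
    exact ⟨i.word, hcon i hi, rfl⟩
  have hM : ∀ (S : Type u) [Semigroup S], M S → Mod i.word S := by
    intro S _ h φ
    obtain ⟨v, hv, e⟩ := (hE S).1 h i hi φ
    exact ⟨v, fun h' => hi2 (by rw [← show v = i.word from h']; exact hv), e⟩
  apply mod_nonelementary (FreeSemigroup.of 0 * i.word)
  apply hmax _ (mod_isInclusiveVariety _)
  refine ⟨fun S _ h => mod_le _ S (hM S h), ULift.{u} (Nil (letters i.word).length),
    inferInstance, ?_, ?_⟩
  · refine (satisfies_ulift _).2 (nil_satisfies _ _ ?_)
    rw [letters_mul, List.length_append]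
    simp [letters]
  · intro h
    exact nil_not_satisfies _ ((satisfies_ulift _).1 (hM _ h))

end Pool.Agent.Results.MP_f75ac6_al.NoMaximal
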